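import Mathlib
import Pool.Agent.H26.HD1

set_option autoImplicit false

open Filter Topology MeasureTheory Set Real
open scoped ENNReal

namespace Pool.Agent.Results.MP_7489b4_an.Answer

open H26 HD0

def cg (f : ℝ → ℝ) : Set (ℝ × ℝ) :=
  {A | min (f A.1) (liminf f (𝓝[≠] A.1)) ≤ A.2 ∧ A.2 ≤ max (f A.1) (limsup f (𝓝[≠] A.1))}

noncomputable def r (α : ℝ) (f g : ℝ → ℝ) : ℝ≥0∞ := haus α (cg f) (cg g)

noncomputable def W (n : ℕ) (f : ℝ → ℝ) (x : ℝ) : ℝ :=
  √(n / π) * ∫ s, f (x + s) * exp (-n * s ^ 2)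

noncomputable def P (ρ : ℝ) (f : ℝ → ℝ) (x : ℝ) : ℝ :=
  1 / (2 * π) * ∫ s in (-π)..π, f (x + s) * ((1 - ρ ^ 2) / (1 + ρ ^ 2 - 2 * ρ * cos s))

noncomputable def V (n : ℕ) (f : ℝ → ℝ) (x : ℝ) : ℝ :=
  (n.factorial : ℝ) ^ 2 / (2 * n).factorial * (1 / (2 * π)) *
    ∫ s in (-π)..π, f (x + s) * (2 * cos (s / 2)) ^ (2 * n)

def CondW (α : ℝ) (f : ℝ → ℝ) : Prop :=
  limsup (fun n : ℕ => ENNReal.ofReal √n * r α f (W n f)) atTop < ⊤

def CondP (α : ℝ) (f : ℝ → ℝ) : Prop :=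
  limsup (fun ρ : ℝ => ENNReal.ofReal (1 / (1 - ρ)) * r α f (P ρ f)) (𝓝[<] 1) < ⊤

def CondV (α : ℝ) (f : ℝ → ℝ) : Prop :=
  limsup (fun n : ℕ => ENNReal.ofReal √n * r α f (V n f)) atTop < ⊤

theorem result (α : ℝ) (hα : 0 < α) (f : ℝ → ℝ) (hf : Adm f)
    (h : CondW α f ∨ CondP α f ∨ CondV α f) : Continuous f := by
  rcases h with h | h | h
  · refine main env2 aiW hα one_pos hf (fun n => W n f) (fun n => √n) (fun n x => ?_)
      (by simpa using uN 1) h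
    simp only [W, kW, mul_left_comm (f _), integral_const_mul]
  · refine main env2 aiP hα one_pos hf (fun ρ => P ρ f) _ (fun ρ x => ?_) (uP 1) h
    simp only [← int_ind, P, qP, mul_left_comm (f _), intervalIntegral.integral_const_mul]
  · refine main env2 aiV hα one_pos hf (fun n => V n f) (fun n => √n) (fun n x => ?_)
      (by simpa using uN 1) h
    simp only [← int_ind, V, qV, mul_left_comm (f _), intervalIntegral.integral_const_mul]

end Pool.Agent.Results.MP_7489b4_an.Answer
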